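import Pool.Agent.Helper35_WH.Stmt3

/-!
# Coordinates for the solutions of a connected chord system (module COORD)
-/

set_option autoImplicit false

namespace Pool.Agent.Helper35_WH

open FreeGroup (mk of)

namespace Coord92

/-- norm of a substitution -/
lemma norm_lift_mk_le {α β : Type} [DecidableEq β] (f : α → FreeGroup β) (K : ℕ)
    (hf : ∀ x, (f x).norm ≤ K) (L : List (α × Bool)) :
    (FreeGroup.lift f (mk L)).norm ≤ L.length * K := by
  induction L with
  | nil =>
    have : (mk ([] : List (α × Bool))) = 1 := rfl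
    rw [this, map_one, FreeGroup.norm_one]
    exact Nat.zero_le _
  | cons x L ih =>
    have h1 : mk (x :: L) = mk [x] * mk L := by rw [FreeGroup.mul_mk]; rfl
    rw [h1, map_mul]
    refine (FreeGroup.norm_mul_le _ _).trans ?_
    have h2 : (FreeGroup.lift f (mk [x])).norm ≤ K := by
      rw [FreeGroup.lift_mk]
      obtain ⟨a, b⟩ := x
      cases b
      · simpa using hf a
      · simpa using hf a
    rw [List.length_cons, add_mul, one_mul]
    omega

lemma norm_lift_le {α β : Type} [DecidableEq α] [DecidableEq β] (f : α → FreeGroup β) (K : ℕ)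
    (hf : ∀ x, (f x).norm ≤ K) (v : FreeGroup α) :
    (FreeGroup.lift f v).norm ≤ v.norm * K := by
  have := norm_lift_mk_le f K hf v.toWord
  rwa [FreeGroup.mk_toWord] at this

lemma norm_map_le {α β : Type} [DecidableEq α] [DecidableEq β] (f : α → β) (v : FreeGroup α) :
    (FreeGroup.map f v).norm ≤ v.norm := by
  rw [FreeGroup.map_eq_lift]
  have := norm_lift_le (of ∘ f) 1 (fun x => by simp) v
  simpa using this

lemma lift_map {α β M : Type} [Group M] (f : α → β) (g : β → M) (v : FreeGroup α) :
    FreeGroup.lift g (FreeGroup.map f v) = FreeGroup.lift (fun x => g (f x)) v := by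
  have : (FreeGroup.lift g).comp (FreeGroup.map f) = FreeGroup.lift (fun x => g (f x)) := by
    ext x
    simp
  exact DFunLike.congr_fun this v

lemma lift_lift {α β M : Type} [Group M] (f : α → FreeGroup β) (g : β → M) (v : FreeGroup α) :
    FreeGroup.lift g (FreeGroup.lift f v) = FreeGroup.lift (fun x => FreeGroup.lift g (f x)) v := by
  have : (FreeGroup.lift g).comp (FreeGroup.lift f) =
      FreeGroup.lift (fun x => FreeGroup.lift g (f x)) := by
    ext x
    simp
  exact DFunLike.congr_fun this v

variable {R : Rim} {m : Marks R} {A' : Chords R}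

/-- potentials with normalised boundary parts -/
structure Pt (R : Rim) (A A' : Chords R) {M : Type} [Group M] (b r : R.E → M) : Prop where
  σ : ∀ e, r (R.σ e) = r e
  φ : ∀ e, A'.A e = R.φ e → r (R.φ e) = r e * b e
  band : ∀ e, A'.A e ≠ R.φ e → r e * b e * (r (R.φ e))⁻¹ =
        r (A.A e) * b (A.A e) * (r (R.φ (A.A e)))⁻¹

variable {A : Chords R}

lemma polyVal_of_pt (hA : ∀ e, A'.A e = A.A e ∨ A'.A e = R.φ e) {M : Type} [Group M]
    {b r : R.E → M} (hb : R.Bd b) (h : Pt R A A' b r) (h0 : r (m.mark none) = 1) :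
    PolyVal m A' (fun j => FreeGroup.lift b (m.u (R.σ (m.mark j))))
      (fun e => r e * (FreeGroup.lift b (m.u e))⁻¹) where
  root := by simp [h0, m.u_mark]
  nb := by
    intro e he
    rw [h.φ e he, m.u_φ M b hb e]
    group
  vert := by
    intro e he
    rw [h.σ, m.u_σ e he]
  mk' := by
    intro j
    rw [h.σ, m.u_mark]
    simp
  band := by
    intro e he
    have h1 : A'.A e = A.A e := (hA e).resolve_right he
    rw [m.u_φ M b hb e, m.u_φ M b hb (A'.A e), h1]
    have h2 := h.band e he
    set x := r e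
    set y := b e
    set z := r (R.φ e)
    set x' := r (A.A e)
    set y' := b (A.A e)
    set z' := r (R.φ (A.A e))
    have h3 : x⁻¹ * x' = y * z⁻¹ * z' * y'⁻¹ := by
      have : x' = x * y * z⁻¹ * (z' * y'⁻¹) := by rw [h2]; group
      rw [this]; group
    calc (x * (FreeGroup.lift b (m.u e))⁻¹)⁻¹ * (x' * (FreeGroup.lift b (m.u (A.A e)))⁻¹)
        = FreeGroup.lift b (m.u e) * (x⁻¹ * x') * (FreeGroup.lift b (m.u (A.A e)))⁻¹ := by group
      _ = FreeGroup.lift b (m.u e) * (y * z⁻¹ * z' * y'⁻¹) *
          (FreeGroup.lift b (m.u (A.A e)))⁻¹ := by rw [h3]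
      _ = _ := by group

lemma pt_of_polyVal (hA : ∀ e, A'.A e = A.A e ∨ A'.A e = R.φ e) {M : Type} [Group M]
    {b s : R.E → M} (hb : R.Bd b)
    (h : PolyVal m A' (fun j => FreeGroup.lift b (m.u (R.σ (m.mark j)))) s) :
    Pt R A A' b (fun e => s e * FreeGroup.lift b (m.u e)) where
  σ := by
    have key : ∀ j, s (R.σ (m.mark j)) * FreeGroup.lift b (m.u (R.σ (m.mark j))) =
        s (m.mark j) * FreeGroup.lift b (m.u (m.mark j)) := by
      intro j
      rw [← h.mk' j, m.u_mark, map_one, mul_one]
    intro e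
    by_cases he : ∀ j, e ≠ m.mark j ∧ e ≠ R.σ (m.mark j)
    · rw [h.vert e he, m.u_σ e he]
    · push Not at he
      obtain ⟨j, hj⟩ := he
      by_cases h1 : e = m.mark j
      · rw [h1]
        exact key j
      · rw [hj h1, R.σσ]
        exact (key j).symm
  φ := by
    intro e he
    rw [h.nb e he, m.u_φ M b hb e]
    group
  band := by
    intro e he
    have h1 : A'.A e = A.A e := (hA e).resolve_right he
    have h2 := h.band e he
    rw [h1] at h2
    rw [m.u_φ M b hb e, m.u_φ M b hb (A.A e)]
    set x := s e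
    set z := s (R.φ e)
    set x' := s (A.A e)
    set z' := s (R.φ (A.A e))
    have h3 : x * z⁻¹ = x' * z'⁻¹ := by
      have : x' = x * (x⁻¹ * x') := by group
      rw [this, h2]
      group
    calc x * FreeGroup.lift b (m.u e) * b e * (z * (FreeGroup.lift b (m.u e) * b e))⁻¹
        = x * z⁻¹ := by group
      _ = x' * z'⁻¹ := h3
      _ = _ := by group

end Coord92

open Coord92

theorem coord (h2 : SinglePolyStatement) (h3 : PolyWordStatement) : CoordStatement := by
  refine ⟨4, 2, fun R m A hA => ?_⟩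
  obtain ⟨A', hAA, hT, hsol⟩ := h2 R A hA
  obtain ⟨pw⟩ := h3 R m A' hT
  classical
  set N := Fintype.card R.E with hN
  -- the boundary part of a potential
  let ub : R.E → FreeGroup (Fin pw.ℓ ⊕ R.E) := fun e => FreeGroup.map Sum.inr (m.u e)
  let sw : List (Ltr (Fin pw.ℓ) (Fin m.β)) → FreeGroup (Fin pw.ℓ ⊕ R.E) := fun L =>
    FreeGroup.lift (Sum.elim (fun k => of (Sum.inl k)) fun j => ub (R.σ (m.mark (some j)))) (mk L)
  let ρ : R.E → FreeGroup (Fin pw.ℓ ⊕ R.E) := fun e => sw (pw.W.take (pw.pre e)) * ub e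
  let X : Fin pw.ℓ → FreeGroup (R.E ⊕ R.E) := fun k =>
    FreeGroup.map Sum.inr (m.u (pw.bnd k)) * of (Sum.inl (pw.bnd k)) *
      (FreeGroup.map Sum.inr (m.u (A'.A (pw.bnd k))))⁻¹
  let Z : R.E → FreeGroup (Fin pw.ℓ ⊕ R.E) := fun e => (ρ e)⁻¹ * ρ (A.A e)
  have hbnd : ∀ k, A'.A (pw.bnd k) = A.A (pw.bnd k) := fun k =>
    (hAA (pw.bnd k)).resolve_right (pw.bnd_ne k)
  have hub : ∀ e, (ub e).norm ≤ N := fun e => (norm_map_le _ _).trans (m.norm_u e)
  have hsw : ∀ L : List (Ltr (Fin pw.ℓ) (Fin m.β)), (sw L).norm ≤ L.length * (N + 1) := by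
    intro L
    refine norm_lift_mk_le _ _ ?_ L
    rintro (k | j)
    · simp only [Sum.elim_inl, FreeGroup.norm_of]
      omega
    · simp only [Sum.elim_inr]
      exact (hub _).trans (Nat.le_succ _)
  have hρ : ∀ e, (ρ e).norm ≤ N * (N + 1) + N := by
    intro e
    refine (FreeGroup.norm_mul_le _ _).trans (Nat.add_le_add ?_ (hub e))
    refine (hsw _).trans (Nat.mul_le_mul_right _ ?_)
    rw [List.length_take]
    exact (min_le_right _ _).trans pw.len
  have hρv : ∀ (M : Type) [Group M] (b : R.E → M) (x : Fin pw.ℓ → M) (e : R.E),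
      FreeGroup.lift (Sum.elim x b) (ρ e) =
        FreeGroup.lift (Sum.elim x fun j => FreeGroup.lift b (m.u (R.σ (m.mark (some j)))))
          (mk (pw.W.take (pw.pre e))) * FreeGroup.lift b (m.u e) := by
    intro M _ b x e
    simp only [ρ, sw, map_mul]
    rw [lift_lift]
    congr 1
    · congr 1
      congr 1
      funext y
      rcases y with k | j
      · simp
      · simp only [Sum.elim_inr, ub]
        rw [lift_map]
        simp
    · simp only [ub]
      rw [lift_map]
      simp
  refine ⟨pw.ℓ, pw.W, pw.col, X, Z, pw.two, pw.one, pw.vc, pw.len, ?_, ?_, ?_⟩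
  · intro k
    have h1 : (X k).norm ≤ N + 1 + N := by
      refine (FreeGroup.norm_mul_le _ _).trans (Nat.add_le_add ?_ ?_)
      · refine (FreeGroup.norm_mul_le _ _).trans (Nat.add_le_add ((norm_map_le _ _).trans (m.norm_u _)) ?_)
        rw [FreeGroup.norm_of]
      · rw [FreeGroup.norm_inv_eq]
        exact (norm_map_le _ _).trans (m.norm_u _)
    refine h1.trans ?_
    nlinarith
  · intro e
    have h1 : (Z e).norm ≤ (N * (N + 1) + N) + (N * (N + 1) + N) := by
      refine (FreeGroup.norm_mul_le _ _).trans (Nat.add_le_add ?_ (hρ _))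
      rw [FreeGroup.norm_inv_eq]
      exact hρ e
    refine h1.trans ?_
    nlinarith
  · intro M _ b hb
    refine ⟨fun a ha => ?_, fun x hx => ?_⟩
    · obtain ⟨r, hr1, hr2, hr3, hr4⟩ := (hsol M b a hb).1 ha
      set g := (r (m.mark none))⁻¹ with hg
      have hpt : Pt R A A' b (fun e => g * r e) :=
        { σ := fun e => by rw [hr1]
          φ := fun e he => by rw [hr2 e he, mul_assoc]
          band := fun e he => by
            have := hr4 e he
            calc g * r e * b e * (g * r (R.φ e))⁻¹ = g * (r e * b e * (r (R.φ e))⁻¹) * g⁻¹ := by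
                  group
              _ = g * (r (A.A e) * b (A.A e) * (r (R.φ (A.A e)))⁻¹) * g⁻¹ := by rw [this]
              _ = _ := by group }
      have hpv := polyVal_of_pt (m := m) hAA hb hpt (by simp [hg])
      set s : R.E → M := fun e => g * r e * (FreeGroup.lift b (m.u e))⁻¹ with hs
      have hX : ∀ k, (s (pw.bnd k))⁻¹ * s (A'.A (pw.bnd k)) =
          FreeGroup.lift (Sum.elim a b) (X k) := by
        intro k
        simp only [X, map_mul, map_inv]
        rw [lift_map, lift_map]
        simp only [Sum.elim_inr, FreeGroup.lift_apply_of, Sum.elim_inl]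
        rw [hr3, hbnd, hs]
        group
      obtain ⟨h4, h5⟩ := pw.fwd M _ s hpv
      simp only [hX] at h4 h5
      refine ⟨h4, fun e => ?_⟩
      simp only [Z, map_mul, map_inv]
      rw [hρv, hρv, ← h5, ← h5, hr3, hs]
      group
    · obtain ⟨h4, h5⟩ := pw.bwd M (fun j => FreeGroup.lift b (m.u (R.σ (m.mark j)))) x hx
      have hpt := pt_of_polyVal (A := A) hAA hb h4
      have hZ : ∀ e, FreeGroup.lift (Sum.elim x b) (Z e) =
          (FreeGroup.lift (Sum.elim x b) (ρ e))⁻¹ * FreeGroup.lift (Sum.elim x b) (ρ (A.A e)) := by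
        intro e
        simp only [Z, map_mul, map_inv]
      refine ⟨(hsol M b _ hb).2 ⟨fun e => FreeGroup.lift (Sum.elim x b) (ρ e), ?_, ?_, ?_, ?_⟩,
        fun k => ?_⟩
      · intro e
        have := hpt.σ e
        rw [← hρv, ← hρv] at this
        exact this
      · intro e he
        have := hpt.φ e he
        rw [← hρv, ← hρv] at this
        exact this
      · intro e
        exact hZ e
      · intro e he
        have := hpt.band e he
        simp only [← hρv] at this
        exact this
      · simp only [X, map_mul, map_inv]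
        rw [lift_map, lift_map]
        simp only [Sum.elim_inr, FreeGroup.lift_apply_of, Sum.elim_inl]
        rw [hZ, hρv, hρv, h5 k, hbnd]
        group

end Pool.Agent.Helper35_WH
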