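import Pool.Agent.Helper35_WH.Stmt3
import Pool.Agent.Helper92_WH.COORD

/-!
# Comparison of two connected chord systems (module CHORDCON)
-/

set_option autoImplicit false
set_option linter.unusedSectionVars false

namespace Pool.Agent.Helper35_WH

open FreeGroup (mk of)

namespace ChordCon92

open Coord92

/-! ### Polynomial bounds -/

/-- polynomially bounded functions -/
def PB (g : ℕ → ℕ) : Prop := ∃ C d : ℕ, ∀ n, g n ≤ C * (n + 1) ^ d

lemma PB.const (c : ℕ) : PB fun _ => c := ⟨c, 0, fun n => by simp⟩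
lemma PB.id : PB fun n => n := ⟨1, 1, fun n => by simp⟩
lemma PB.mono {g g' : ℕ → ℕ} (h : PB g') (hg : ∀ n, g n ≤ g' n) : PB g := by
  obtain ⟨C, d, h⟩ := h
  exact ⟨C, d, fun n => (hg n).trans (h n)⟩
lemma PB.add {g g' : ℕ → ℕ} (h : PB g) (h' : PB g') : PB fun n => g n + g' n := by
  obtain ⟨C, d, h⟩ := h
  obtain ⟨C', d', h'⟩ := h'
  refine ⟨C + C', d + d', fun n => ?_⟩
  have h1 : (n + 1) ^ d ≤ (n + 1) ^ (d + d') := Nat.pow_le_pow_right (by omega) (by omega)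
  have h2 : (n + 1) ^ d' ≤ (n + 1) ^ (d + d') := Nat.pow_le_pow_right (by omega) (by omega)
  calc g n + g' n ≤ C * (n + 1) ^ d + C' * (n + 1) ^ d' := Nat.add_le_add (h n) (h' n)
    _ ≤ C * (n + 1) ^ (d + d') + C' * (n + 1) ^ (d + d') :=
        Nat.add_le_add (Nat.mul_le_mul_left _ h1) (Nat.mul_le_mul_left _ h2)
    _ = _ := by ring
lemma PB.mul {g g' : ℕ → ℕ} (h : PB g) (h' : PB g') : PB fun n => g n * g' n := by
  obtain ⟨C, d, h⟩ := h
  obtain ⟨C', d', h'⟩ := h'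
  refine ⟨C * C', d + d', fun n => ?_⟩
  calc g n * g' n ≤ (C * (n + 1) ^ d) * (C' * (n + 1) ^ d') := Nat.mul_le_mul (h n) (h' n)
    _ = _ := by rw [pow_add]; ring
lemma PB.base (C d : ℕ) : PB fun n => C * (n + 1) ^ d := ⟨C, d, fun _ => le_rfl⟩

/-! ### Transport of solutions -/

section Transport

variable {L L' B : Type} [DecidableEq L] [DecidableEq L'] [DecidableEq B]

/-- transport of a solution -/
def tr (f : FreeGroup (L ⊕ B) ≃* FreeGroup (L' ⊕ B)) {M : Type} [Group M] (c : B → M)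
    (x : L' → M) : L → M := fun k => FreeGroup.lift (Sum.elim x c) (f (of (.inl k)))

lemma lift_tr {f : FreeGroup (L ⊕ B) ≃* FreeGroup (L' ⊕ B)} (hf : ∀ j, f (of (.inr j)) = of (.inr j))
    {M : Type} [Group M] (c : B → M) (x : L' → M) (v : FreeGroup (L ⊕ B)) :
    FreeGroup.lift (Sum.elim (tr f c x) c) v = FreeGroup.lift (Sum.elim x c) (f v) := by
  have : FreeGroup.lift (Sum.elim (tr f c x) c) =
      (FreeGroup.lift (Sum.elim x c)).comp f.toMonoidHom := by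
    ext y
    rcases y with k | j
    · simp [tr]
    · simp [hf]
  exact DFunLike.congr_fun this v

lemma side_symm {f : FreeGroup (L ⊕ B) ≃* FreeGroup (L' ⊕ B)}
    (hf : ∀ j, f (of (.inr j)) = of (.inr j)) (j : B) : f.symm (of (.inr j)) = of (.inr j) := by
  rw [← hf, MulEquiv.symm_apply_apply]

lemma tr_symm {f : FreeGroup (L ⊕ B) ≃* FreeGroup (L' ⊕ B)}
    (hf : ∀ j, f (of (.inr j)) = of (.inr j)) {M : Type} [Group M] (c : B → M) (x : L' → M) :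
    tr f.symm c (tr f c x) = x := by
  funext k
  unfold tr
  change FreeGroup.lift (Sum.elim (tr f c x) c) (f.symm (of (.inl k))) = x k
  rw [lift_tr hf, MulEquiv.apply_symm_apply]
  simp

end Transport

lemma eqw_equiv {L L' : Type} {β N : ℕ} [DecidableEq L] [DecidableEq L'] {W : List (Ltr L (Fin β))}
    {W' : List (Ltr L' (Fin β))} (h : Eqw N W W') (M : Type) [Group M]
    (c : Option (Fin β) → M) : Nonempty (QSol W c ≃ QSol W' c) := by
  obtain ⟨f, hf, hW, -, -⟩ := h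
  have hf' := side_symm hf
  have hW' : f.symm (mk W') = mk W := by rw [← hW, MulEquiv.symm_apply_apply]
  refine ⟨⟨fun x => ⟨tr f.symm (fun j => c (some j)) x.1, ?_⟩,
    fun x => ⟨tr f (fun j => c (some j)) x.1, ?_⟩, fun x => ?_, fun x => ?_⟩⟩
  · rw [lift_tr hf', hW']
    exact x.2
  · rw [lift_tr hf, hW]
    exact x.2
  · exact Subtype.ext (tr_symm (f := f.symm) hf' _ _)
  · exact Subtype.ext (tr_symm hf _ _)

lemma eqw_symm {L L' B : Type} {N : ℕ} [DecidableEq L] [DecidableEq L'] [DecidableEq B]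
    {W : List (Ltr L B)} {W' : List (Ltr L' B)} (h : Eqw N W W') : Eqw N W' W := by
  obtain ⟨f, hf, hW, h1, h2⟩ := h
  exact ⟨f.symm, side_symm hf, by rw [← hW, MulEquiv.symm_apply_apply], h2, h1⟩

lemma norm_equiv_le {L L' B : Type} {N : ℕ} [DecidableEq L] [DecidableEq L'] [DecidableEq B]
    {f : FreeGroup (L ⊕ B) ≃* FreeGroup (L' ⊕ B)} (hf : ∀ j, f (of (.inr j)) = of (.inr j))
    (h1 : ∀ k, (f (of (.inl k))).norm ≤ N) (v : FreeGroup (L ⊕ B)) :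
    (f v).norm ≤ v.norm * (N + 1) := by
  have h2 : f v = FreeGroup.lift (fun y => f (of y)) v := by
    have : f.toMonoidHom = FreeGroup.lift (fun y => f (of y)) := by
      ext y; simp
    exact DFunLike.congr_fun this v
  rw [h2]
  refine norm_lift_le _ _ ?_ v
  rintro (k | j)
  · exact (h1 k).trans (Nat.le_succ _)
  · rw [hf, FreeGroup.norm_of]
    omega

lemma eqw_trans {L L' L'' B : Type} {N N' : ℕ} [DecidableEq L] [DecidableEq L']
    [DecidableEq L''] [DecidableEq B] {W : List (Ltr L B)} {W' : List (Ltr L' B)}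
    {W'' : List (Ltr L'' B)} (h : Eqw N W W') (h' : Eqw N' W' W'') :
    Eqw ((N + 1) * (N' + 1)) W W'' := by
  obtain ⟨f, hf, hW, h1, h2⟩ := h
  obtain ⟨f', hf', hW', h1', h2'⟩ := h'
  refine ⟨f.trans f', fun j => ?_, ?_, fun k => ?_, fun k => ?_⟩
  · rw [MulEquiv.trans_apply, hf, hf']
  · rw [MulEquiv.trans_apply, hW, hW']
  · rw [MulEquiv.trans_apply]
    refine (norm_equiv_le hf' h1' _).trans (Nat.mul_le_mul_right _ ((h1 k).trans (Nat.le_succ _)))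
  · rw [MulEquiv.symm_trans_apply]
    refine (norm_equiv_le (side_symm hf) h2 _).trans ?_
    rw [mul_comm (N + 1)]
    exact Nat.mul_le_mul_right _ ((h2' k).trans (Nat.le_succ _))

lemma eqw_mono {L L' B : Type} {N N' : ℕ} [DecidableEq L] [DecidableEq L'] [DecidableEq B]
    {W : List (Ltr L B)} {W' : List (Ltr L' B)} (h : Eqw N W W') (hN : N ≤ N') :
    Eqw N' W W' := by
  obtain ⟨f, hf, hW, h1, h2⟩ := h
  exact ⟨f, hf, hW, fun k => (h1 k).trans hN, fun k => (h2 k).trans hN⟩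

/-! ### Coordinates -/

section Coordinates

variable {R : Rim} (m : Marks R)

/-- the circle values -/
def cv {M : Type} [Group M] (b : R.E → M) (j : Option (Fin m.β)) : M :=
  FreeGroup.lift b (m.u (R.σ (m.mark j)))

/-- the property of coordinates -/
def CProp (A : Chords R) {ℓ : ℕ} (W : List (Ltr (Fin ℓ) (Fin m.β)))
    (X : Fin ℓ → FreeGroup (R.E ⊕ R.E)) (Z : R.E → FreeGroup (Fin ℓ ⊕ R.E)) : Prop :=
  ∀ (M : Type) [Group M] (b : R.E → M), R.Bd b →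
    (∀ a, Sol A b a →
      FreeGroup.lift (Sum.elim (fun k => FreeGroup.lift (Sum.elim a b) (X k))
        fun j => cv m b (some j)) (mk W) = (cv m b none)⁻¹ ∧
      ∀ e, FreeGroup.lift (Sum.elim (fun k => FreeGroup.lift (Sum.elim a b) (X k)) b) (Z e) =
        a e) ∧
    ∀ x : Fin ℓ → M,
      FreeGroup.lift (Sum.elim x fun j => cv m b (some j)) (mk W) = (cv m b none)⁻¹ →
      Sol A b (fun e => FreeGroup.lift (Sum.elim x b) (Z e)) ∧
      ∀ k, FreeGroup.lift (Sum.elim (fun e => FreeGroup.lift (Sum.elim x b) (Z e)) b) (X k) = x k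

variable {m}

lemma cprop_equiv {A : Chords R} {ℓ : ℕ} {W : List (Ltr (Fin ℓ) (Fin m.β))}
    {X : Fin ℓ → FreeGroup (R.E ⊕ R.E)} {Z : R.E → FreeGroup (Fin ℓ ⊕ R.E)}
    (h : CProp m A W X Z) {M : Type} [Group M] {b : R.E → M} (hb : R.Bd b) :
    Nonempty ({a : R.E → M // Sol A b a} ≃ QSol W (cv m b)) := by
  obtain ⟨h1, h2⟩ := h M b hb
  refine ⟨⟨fun a => ⟨fun k => FreeGroup.lift (Sum.elim a.1 b) (X k), (h1 a.1 a.2).1⟩,
    fun x => ⟨fun e => FreeGroup.lift (Sum.elim x.1 b) (Z e), (h2 x.1 x.2).1⟩,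
    fun a => ?_, fun x => ?_⟩⟩
  · exact Subtype.ext (funext fun e => (h1 a.1 a.2).2 e)
  · exact Subtype.ext (funext fun k => (h2 x.1 x.2).2 k)

/-- the composed substitution -/
def ww {ℓ ℓ' : ℕ} (f : FreeGroup (Fin ℓ ⊕ Fin m.β) ≃* FreeGroup (Fin ℓ' ⊕ Fin m.β))
    (X : Fin ℓ' → FreeGroup (R.E ⊕ R.E)) (Z : R.E → FreeGroup (Fin ℓ ⊕ R.E)) (e : R.E) :
    FreeGroup (R.E ⊕ R.E) :=
  FreeGroup.lift (Sum.elim (fun k => FreeGroup.lift (Sum.elim X fun j =>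
    FreeGroup.map Sum.inr (m.u (R.σ (m.mark (some j))))) (f (of (.inl k))))
      fun e' => of (.inr e')) (Z e)

lemma ww_val {ℓ ℓ' : ℕ} (f : FreeGroup (Fin ℓ ⊕ Fin m.β) ≃* FreeGroup (Fin ℓ' ⊕ Fin m.β))
    (X : Fin ℓ' → FreeGroup (R.E ⊕ R.E)) (Z : R.E → FreeGroup (Fin ℓ ⊕ R.E)) (e : R.E)
    {M : Type} [Group M] (a b : R.E → M) :
    FreeGroup.lift (Sum.elim a b) (ww f X Z e) =
      FreeGroup.lift (Sum.elim (tr f (fun j => cv m b (some j))
        fun k => FreeGroup.lift (Sum.elim a b) (X k)) b) (Z e) := by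
  unfold ww
  rw [lift_lift]
  congr 2
  funext y
  rcases y with k | e'
  · simp only [Sum.elim_inl]
    rw [lift_lift]
    unfold tr
    congr 2
    funext y
    rcases y with k' | j
    · rfl
    · simp only [Sum.elim_inr]
      rw [lift_map]
      rfl
  · simp

lemma ww_norm {ℓ ℓ' : ℕ} {f : FreeGroup (Fin ℓ ⊕ Fin m.β) ≃* FreeGroup (Fin ℓ' ⊕ Fin m.β)}
    {X : Fin ℓ' → FreeGroup (R.E ⊕ R.E)} {Z : R.E → FreeGroup (Fin ℓ ⊕ R.E)} {e : R.E}
    {P Q : ℕ} (hX : ∀ k, (X k).norm ≤ P) (hZ : (Z e).norm ≤ P)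
    (hf : ∀ k, (f (of (.inl k))).norm ≤ Q) :
    (ww f X Z e).norm ≤ P * (1 + Q * (P + Fintype.card R.E)) := by
  unfold ww
  refine (norm_lift_le _ (1 + Q * (P + Fintype.card R.E)) ?_ _).trans
    (Nat.mul_le_mul_right _ hZ)
  rintro (k | e')
  · simp only [Sum.elim_inl]
    refine (norm_lift_le _ (P + Fintype.card R.E) ?_ _).trans ?_
    · rintro (k' | j)
      · exact (hX k').trans (Nat.le_add_right _ _)
      · exact (norm_map_le _ _).trans ((m.norm_u _).trans (Nat.le_add_left _ _))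
    · exact (Nat.mul_le_mul_right _ (hf k)).trans (Nat.le_add_left _ _)
  · simp only [Sum.elim_inr, FreeGroup.norm_of]
    exact Nat.le_add_right _ _

lemma one_dir {A₁ A₂ : Chords R} {ℓ₁ ℓ₂ : ℕ} {W₁ : List (Ltr (Fin ℓ₁) (Fin m.β))}
    {W₂ : List (Ltr (Fin ℓ₂) (Fin m.β))}
    {X₁ : Fin ℓ₁ → FreeGroup (R.E ⊕ R.E)} {Z₁ : R.E → FreeGroup (Fin ℓ₁ ⊕ R.E)}
    {X₂ : Fin ℓ₂ → FreeGroup (R.E ⊕ R.E)} {Z₂ : R.E → FreeGroup (Fin ℓ₂ ⊕ R.E)}
    (h₁ : CProp m A₁ W₁ X₁ Z₁) (h₂ : CProp m A₂ W₂ X₂ Z₂)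
    {f : FreeGroup (Fin ℓ₁ ⊕ Fin m.β) ≃* FreeGroup (Fin ℓ₂ ⊕ Fin m.β)}
    (hf : ∀ j, f (of (.inr j)) = of (.inr j)) (hW : f (mk W₁) = mk W₂)
    {M : Type} [Group M] {b : R.E → M} (hb : R.Bd b) (a : R.E → M) (ha : Sol A₂ b a) :
    Sol A₁ b (fun e => FreeGroup.lift (Sum.elim a b) (ww f X₂ Z₁ e)) ∧
      ∀ e, FreeGroup.lift (Sum.elim (fun e' => FreeGroup.lift (Sum.elim a b) (ww f X₂ Z₁ e')) b)
        (ww f.symm X₁ Z₂ e) = a e := by
  obtain ⟨h3, h4⟩ := (h₂ M b hb).1 a ha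
  set x₂ : Fin ℓ₂ → M := fun k => FreeGroup.lift (Sum.elim a b) (X₂ k) with hx₂
  have h5 : FreeGroup.lift (Sum.elim (tr f (fun j => cv m b (some j)) x₂)
      fun j => cv m b (some j)) (mk W₁) = (cv m b none)⁻¹ := by
    rw [lift_tr hf, hW]
    exact h3
  obtain ⟨h6, h7⟩ := (h₁ M b hb).2 _ h5
  have h8 : (fun e => FreeGroup.lift (Sum.elim a b) (ww f X₂ Z₁ e)) =
      fun e => FreeGroup.lift (Sum.elim (tr f (fun j => cv m b (some j)) x₂) b) (Z₁ e) :=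
    funext fun e => ww_val f X₂ Z₁ e a b
  rw [h8]
  refine ⟨h6, fun e => ?_⟩
  rw [ww_val]
  simp only [h7]
  rw [tr_symm hf]
  exact h4 e

end Coordinates

end ChordCon92

open ChordCon92

theorem chordCon (hM : MarksStatement) (hC : CoordStatement) (hN : NormStatement)
    (hT : TypeStatement) : ChordConStatement := by
  obtain ⟨C₁, d₁, hC⟩ := hC
  obtain ⟨C₂, d₂, hN⟩ := hN
  obtain ⟨hT1, hT2, hT3⟩ := hT
  let P : ℕ → ℕ := fun n => C₁ * (n + 1) ^ d₁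
  let Q : ℕ → ℕ := fun n => (C₂ * (n + 1) ^ d₂ + 1) * (C₂ * (n + 1) ^ d₂ + 1)
  have hP : PB P := PB.base _ _
  have hQ : PB Q := ((PB.base _ _).add (PB.const 1)).mul ((PB.base _ _).add (PB.const 1))
  obtain ⟨C, d, hCd⟩ : PB fun n => P n * (1 + Q n * (P n + n)) :=
    hP.mul ((PB.const 1).add (hQ.mul (hP.add PB.id)))
  refine ⟨C, d, fun R A₁ A₂ hE hA₁ hA₂ heq => ?_⟩
  obtain ⟨e₀⟩ := hE
  obtain ⟨m, -⟩ := hM R e₀
  set N := Fintype.card R.E with hNdef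
  obtain ⟨ℓ₁, W₁, col₁, X₁, Z₁, two₁, one₁, vc₁, len₁, nX₁, nZ₁, h₁⟩ := hC R m A₁ hA₁
  obtain ⟨ℓ₂, W₂, col₂, X₂, Z₂, two₂, one₂, vc₂, len₂, nX₂, nZ₂, h₂⟩ := hC R m A₂ hA₂
  have h₁' : CProp m A₁ W₁ X₁ Z₁ := h₁
  have h₂' : CProp m A₂ W₂ X₂ Z₂ := h₂
  have hq : ∀ (M : Type) [Group M] (c : Option (Fin m.β) → M),
      Nonempty (QSol W₁ c ≃ QSol W₂ c) := by
    intro M _ c
    obtain ⟨b, hb, hbc⟩ := m.real M c
    have hc : cv m b = c := funext hbc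
    obtain ⟨e1⟩ := cprop_equiv h₁' hb
    obtain ⟨e2⟩ := cprop_equiv h₂' hb
    obtain ⟨e3⟩ := heq M b hb
    rw [hc] at e1 e2
    exact ⟨e1.symm.trans (e3.trans e2)⟩
  have hlen : ∀ n, n ≤ N → C₂ * (n + 1) ^ d₂ ≤ C₂ * (N + 1) ^ d₂ := fun n hn =>
    Nat.mul_le_mul_left _ (Nat.pow_le_pow_left (Nat.succ_le_succ hn) _)
  have hW : Eqw (Q N) W₁ W₂ := by
    have hN1 := hN ℓ₁ m.β W₁ col₁ two₁ one₁ vc₁
    have hN2 := hN ℓ₂ m.β W₂ col₂ two₂ one₂ vc₂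
    have key : ∀ {L : Type} [DecidableEq L] {V : List (Ltr L (Fin m.β))},
        Eqw (C₂ * (W₁.length + 1) ^ d₂) W₁ V → Eqw (C₂ * (W₂.length + 1) ^ d₂) W₂ V →
        Eqw (Q N) W₁ W₂ := by
      intro L _ V k1 k2
      exact eqw_trans (eqw_mono k1 (hlen _ len₁)) (eqw_symm (eqw_mono k2 (hlen _ len₂)))
    have tq : ∀ {L L' : Type} [DecidableEq L] [DecidableEq L'] {V : List (Ltr L (Fin m.β))}
        {V' : List (Ltr L' (Fin m.β))},
        Eqw (C₂ * (W₁.length + 1) ^ d₂) W₁ V → Eqw (C₂ * (W₂.length + 1) ^ d₂) W₂ V' →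
        ∀ (M : Type) [Group M] (c : Option (Fin m.β) → M), Nonempty (QSol V c ≃ QSol V' c) := by
      intro L L' _ _ V V' k1 k2 M _ c
      obtain ⟨a1⟩ := eqw_equiv k1 M c
      obtain ⟨a2⟩ := eqw_equiv k2 M c
      obtain ⟨a3⟩ := hq M c
      exact ⟨a1.symm.trans (a3.trans a2)⟩
    rcases hN1 with ⟨h, sgn, k1⟩ | ⟨k, hk, k1⟩
    · rcases hN2 with ⟨h', sgn', k2⟩ | ⟨k', hk', k2⟩
      · obtain ⟨rfl, rfl⟩ := hT1 _ _ _ _ _ (tq k1 k2)
        exact key k1 k2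
      · exact absurd (tq k1 k2) (hT3 _ _ _ _ hk')
    · rcases hN2 with ⟨h', sgn', k2⟩ | ⟨k', hk', k2⟩
      · refine absurd ?_ (hT3 m.β h' k sgn' hk)
        intro M _ c
        obtain ⟨a⟩ := tq k1 k2 M c
        exact ⟨a.symm⟩
      · obtain rfl := hT2 _ _ _ (tq k1 k2)
        exact key k1 k2
  obtain ⟨f, hf, hfW, hf1, hf2⟩ := hW
  have hfW' : f.symm (mk W₂) = mk W₁ := by rw [← hfW, MulEquiv.symm_apply_apply]
  refine ⟨ww f X₂ Z₁, ww f.symm X₁ Z₂, fun e => ?_, fun e => ?_, fun M _ b hb => ⟨?_, ?_⟩⟩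
  · exact (ww_norm nX₂ (nZ₁ e) hf1).trans (hCd N)
  · exact (ww_norm nX₁ (nZ₂ e) hf2).trans (hCd N)
  · exact fun a ha => one_dir h₁' h₂' hf hfW hb a ha
  · exact fun a ha => one_dir h₂' h₁' (f := f.symm) (side_symm hf) hfW' hb a ha

end Pool.Agent.Helper35_WH
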