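import Pool.Agent.Helper35_WH.Stmt3
import Pool.Agent.Helper92_WH.COORD

/-!
# Comparison of two chord systems (module CHORDMAIN)
-/

set_option autoImplicit false
set_option linter.unusedSectionVars false

namespace Pool.Agent.Helper35_WH

open FreeGroup (mk of)

namespace ChordMain92

open Coord92

section Sub

variable {R : Rim} {P : R.E → Bool} (hP : R.Inv P)

/-- the rim of a union of components -/
def subR (hP : R.Inv P) : Rim where
  E := {e : R.E // P e = true}
  σ e := ⟨R.σ e.1, by rw [hP.1]; exact e.2⟩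
  φ e := ⟨R.φ e.1, by rw [hP.2]; exact e.2⟩
  σσ e := Subtype.ext (R.σσ _)
  φφ e := Subtype.ext (R.φφ _)
  σ_ne e h := R.σ_ne _ (congrArg Subtype.val h)
  φ_ne e h := R.φ_ne _ (congrArg Subtype.val h)

/-- the chords of a union of components -/
def subA (A : Chords R) (hA : ∀ e, P (A.A e) = P e) : Chords (subR hP) where
  A e := ⟨A.A e.1, by rw [hA]; exact e.2⟩
  AA e := Subtype.ext (A.AA _)
  A_ne e h := A.A_ne _ (congrArg Subtype.val h)
  comm e := Subtype.ext (A.comm _)

variable {hP}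

/-- extension by one -/
def ex {M : Type} [Group M] (a : (subR hP).E → M) (e : R.E) : M :=
  if h : P e = true then a ⟨e, h⟩ else 1

lemma ex_pos {M : Type} [Group M] (a : (subR hP).E → M) {e : R.E} (h : P e = true) :
    ex a e = a ⟨e, h⟩ := dif_pos h

lemma ex_neg {M : Type} [Group M] (a : (subR hP).E → M) {e : R.E} (h : P e = false) :
    ex a e = 1 := dif_neg (by rw [h]; decide)

lemma ex_val {M : Type} [Group M] (a : (subR hP).E → M) (e : (subR hP).E) :
    ex a e.1 = a e := dif_pos e.2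

lemma bd_sub {M : Type} [Group M] {b : R.E → M} (hb : R.Bd b) :
    (subR hP).Bd (fun e => b e.1) := fun e => hb e.1

lemma bd_ex {M : Type} [Group M] {b : (subR hP).E → M} (hb : (subR hP).Bd b) : R.Bd (ex b) := by
  intro e
  by_cases h : P e = true
  · rw [ex_pos b h, ex_pos b (e := R.φ e) (by rw [hP.2]; exact h)]
    exact hb ⟨e, h⟩
  · rw [Bool.not_eq_true] at h
    rw [ex_neg b h, ex_neg b (e := R.φ e) (by rw [hP.2]; exact h), inv_one]

lemma sol_sub {A : Chords R} {hA : ∀ e, P (A.A e) = P e} {M : Type} [Group M] {b a : R.E → M}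
    (h : Sol A b a) : Sol (subA hP A hA) (fun e => b e.1) (fun e => a e.1) := by
  obtain ⟨h1, h2, h3, r, h4, h5⟩ := h
  refine ⟨fun e => h1 e.1, fun e he => h2 e.1 (congrArg Subtype.val he), fun e he => h3 e.1 ?_,
    fun e => r e.1, fun e => h4 e.1, fun e => h5 e.1⟩
  intro h
  exact he (Subtype.ext h)

lemma sol_ex {A : Chords R} {hA : ∀ e, P (A.A e) = P e} {M : Type} [Group M]
    {b a : (subR hP).E → M} (h : Sol (subA hP A hA) b a) : Sol A (ex b) (ex a) := by
  obtain ⟨h1, h2, h3, r, h4, h5⟩ := h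
  refine ⟨fun e => ?_, fun e he => ?_, fun e he => ?_, ex r, fun e => ?_, fun e => ?_⟩
  · by_cases h : P e = true
    · rw [ex_pos a h, ex_pos a (e := A.A e) (by rw [hA]; exact h)]
      exact h1 ⟨e, h⟩
    · rw [Bool.not_eq_true] at h
      rw [ex_neg a h, ex_neg a (e := A.A e) (by rw [hA]; exact h), inv_one]
  · by_cases h : P e = true
    · rw [ex_pos a h, ex_pos b h]
      exact h2 ⟨e, h⟩ (Subtype.ext he)
    · rw [Bool.not_eq_true] at h
      rw [ex_neg a h, ex_neg b h]
  · by_cases h : P e = true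
    · rw [ex_pos a h, ex_pos b h, ex_pos a (e := R.φ e) (by rw [hP.2]; exact h),
        ex_pos b (e := A.A e) (by rw [hA]; exact h)]
      exact h3 ⟨e, h⟩ (fun h' => he (congrArg Subtype.val h'))
    · rw [Bool.not_eq_true] at h
      rw [ex_neg a h, ex_neg b h, ex_neg a (e := R.φ e) (by rw [hP.2]; exact h),
        ex_neg b (e := A.A e) (by rw [hA]; exact h)]
      simp
  · by_cases h : P e = true
    · rw [ex_pos r h, ex_pos r (e := R.σ e) (by rw [hP.1]; exact h)]
      exact h4 ⟨e, h⟩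
    · rw [Bool.not_eq_true] at h
      rw [ex_neg r h, ex_neg r (e := R.σ e) (by rw [hP.1]; exact h)]
  · by_cases h : P e = true
    · rw [ex_pos r h, ex_pos a h, ex_pos r (e := A.A e) (by rw [hA]; exact h)]
      exact h5 ⟨e, h⟩
    · rw [Bool.not_eq_true] at h
      rw [ex_neg r h, ex_neg a h, ex_neg r (e := A.A e) (by rw [hA]; exact h), mul_one]

lemma equiv_sub {A : Chords R} {hA : ∀ e, P (A.A e) = P e} {M : Type} [Group M]
    (b : (subR hP).E → M) :
    Nonempty ({a : R.E → M // Sol A (ex b) a ∧ ∀ e, P e = false → a e = 1} ≃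
      {a : (subR hP).E → M // Sol (subA hP A hA) b a}) := by
  refine ⟨⟨fun a => ⟨fun e => a.1 e.1, ?_⟩, fun a => ⟨ex a.1, sol_ex a.2, fun e he => ex_neg _ he⟩,
    fun a => ?_, fun a => ?_⟩⟩
  · have h := sol_sub (hP := hP) (hA := hA) a.2.1
    have hb : (fun e : (subR hP).E => ex b e.1) = b := funext fun e => ex_val b e
    rw [hb] at h
    exact h
  · apply Subtype.ext
    funext e
    by_cases h : P e = true
    · exact ex_pos _ h
    · rw [Bool.not_eq_true] at h
      exact (ex_neg _ h).trans (a.2.2 e h).symm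
  · apply Subtype.ext
    funext e
    exact ex_val _ e

end Sub

/-! ### Components -/

section Comp

variable {R : Rim} (A : Chords R)

/-- same component -/
def same (e e' : R.E) : Prop :=
  ∀ f : R.E → Bool, R.Inv f → (∀ e, f (A.A e) = f e) → f e = f e'

/-- the components -/
def st : Setoid R.E where
  r := same A
  iseqv := ⟨fun _ _ _ _ => rfl, fun h f h1 h2 => (h f h1 h2).symm,
    fun h h' f h1 h2 => (h f h1 h2).trans (h' f h1 h2)⟩

/-- representatives -/
noncomputable def rep (e : R.E) : R.E := (Quotient.mk (st A) e).out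

lemma same_rep (e : R.E) : same A e (rep A e) := by
  have h : (Quotient.mk (st A) (rep A e)) = Quotient.mk (st A) e := Quotient.out_eq _
  have h2 : (st A).r (rep A e) e := Quotient.exact h
  exact (st A).iseqv.symm h2

lemma rep_eq {e e' : R.E} (h : same A e e') : rep A e = rep A e' := by
  unfold rep
  have : Quotient.mk (st A) e = Quotient.mk (st A) e' := Quotient.sound h
  rw [this]

/-- the component of `e₀` -/
noncomputable def PP (e₀ e : R.E) : Bool :=
  @decide (same A e e₀) (Classical.propDecidable _)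

lemma PP_iff {e₀ e : R.E} : PP A e₀ e = true ↔ same A e e₀ := by
  unfold PP
  exact @decide_eq_true_iff _ (Classical.propDecidable _)

lemma PP_congr {e₀ e e' : R.E} (h : same A e e') : PP A e₀ e = PP A e₀ e' := by
  rw [Bool.eq_iff_iff, PP_iff, PP_iff]
  exact ⟨fun h1 => (st A).iseqv.trans ((st A).iseqv.symm h) h1, fun h1 => (st A).iseqv.trans h h1⟩

lemma same_σ (e : R.E) : same A (R.σ e) e := fun _ h1 _ => h1.1 e
lemma same_φ (e : R.E) : same A (R.φ e) e := fun _ h1 _ => h1.2 e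
lemma same_A (e : R.E) : same A (A.A e) e := fun _ _ h2 => h2 e

lemma PP_inv (e₀ : R.E) : R.Inv (PP A e₀) :=
  ⟨fun e => PP_congr A (same_σ A e), fun e => PP_congr A (same_φ A e)⟩

lemma PP_A (e₀ : R.E) (e : R.E) : PP A e₀ (A.A e) = PP A e₀ e := PP_congr A (same_A A e)

end Comp

/-- connectedness of a component -/
lemma con_sub {R : Rim} {A B : Chords R} (hAB : InvIff A B) (e₀ : R.E)
    (hB : ∀ e, PP A e₀ (B.A e) = PP A e₀ e) : (subA (PP_inv A e₀) B hB).Con := by
  classical
  intro f hf1 hf2 e e'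
  let g : R.E → Bool := fun x => if h : PP A e₀ x = true then f ⟨x, h⟩ else false
  have gpos : ∀ {x} (h : PP A e₀ x = true), g x = f ⟨x, h⟩ := fun h => dif_pos h
  have gneg : ∀ {x}, ¬ PP A e₀ x = true → g x = false := fun h => dif_neg h
  have hg1 : R.Inv g := by
    refine ⟨fun x => ?_, fun x => ?_⟩
    · by_cases h : PP A e₀ x = true
      · rw [gpos h, gpos (x := R.σ x) (by rw [(PP_inv A e₀).1]; exact h)]
        exact hf1.1 ⟨x, h⟩
      · rw [gneg h, gneg (x := R.σ x) (by rw [(PP_inv A e₀).1]; exact h)]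
    · by_cases h : PP A e₀ x = true
      · rw [gpos h, gpos (x := R.φ x) (by rw [(PP_inv A e₀).2]; exact h)]
        exact hf1.2 ⟨x, h⟩
      · rw [gneg h, gneg (x := R.φ x) (by rw [(PP_inv A e₀).2]; exact h)]
  have hg2 : ∀ x, g (B.A x) = g x := by
    intro x
    by_cases h : PP A e₀ x = true
    · rw [gpos h, gpos (x := B.A x) (by rw [hB]; exact h)]
      exact hf2 ⟨x, h⟩
    · rw [gneg h, gneg (x := B.A x) (by rw [hB]; exact h)]
  have hg3 := (hAB g hg1).2 hg2
  have h1 := (PP_iff A).1 e.2 g hg1 hg3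
  have h2 := (PP_iff A).1 e'.2 g hg1 hg3
  rw [gpos e.2] at h1
  rw [gpos e'.2] at h2
  exact h1.trans h2.symm

lemma invIff_refl {R : Rim} (A : Chords R) : InvIff A A := fun _ _ => Iff.rfl

/-- the substitution of a component, extended to the whole rim -/
noncomputable def big {R : Rim} {P : R.E → Bool} {hP : R.Inv P}
    (w : (subR hP).E → FreeGroup ((subR hP).E ⊕ (subR hP).E)) (e : R.E) : FreeGroup (R.E ⊕ R.E) :=
  if h : P e = true then FreeGroup.map (Sum.map Subtype.val Subtype.val) (w ⟨e, h⟩) else 1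

lemma big_val {R : Rim} {P : R.E → Bool} {hP : R.Inv P}
    (w : (subR hP).E → FreeGroup ((subR hP).E ⊕ (subR hP).E)) {M : Type} [Group M]
    (a b : R.E → M) {e : R.E} (h : P e = true) :
    FreeGroup.lift (Sum.elim a b) (big w e) =
      FreeGroup.lift (Sum.elim (fun e => a e.1) fun e => b e.1) (w ⟨e, h⟩) := by
  unfold big
  rw [dif_pos h]
  refine (lift_map _ _ _).trans ?_
  have h1 : (fun x : (subR hP).E ⊕ (subR hP).E =>
      (Sum.elim a b : R.E ⊕ R.E → M) (Sum.map Subtype.val Subtype.val x)) =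
      Sum.elim (fun e : (subR hP).E => a e.1) fun e : (subR hP).E => b e.1 := by
    funext y
    rcases y with y | y <;> rfl
  exact congrArg (fun g => FreeGroup.lift g (w ⟨e, h⟩)) h1

lemma big_norm {R : Rim} {P : R.E → Bool} {hP : R.Inv P}
    {w : (subR hP).E → FreeGroup ((subR hP).E ⊕ (subR hP).E)} {K : ℕ}
    (hw : ∀ e, (w e).norm ≤ K) (e : R.E) : (big w e).norm ≤ K := by
  unfold big
  split_ifs with h
  · exact (norm_map_le _ _).trans (hw _)
  · rw [FreeGroup.norm_one]
    exact Nat.zero_le _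

/-- the property of the substitutions -/
def Good {R : Rim} (A₁ A₂ : Chords R) (w w' : R.E → FreeGroup (R.E ⊕ R.E)) : Prop :=
  ∀ (M : Type) [Group M] (b : R.E → M), R.Bd b → ∀ a, Sol A₂ b a →
    Sol A₁ b (fun e => FreeGroup.lift (Sum.elim a b) (w e)) ∧
      ∀ e, FreeGroup.lift
        (Sum.elim (fun e' => FreeGroup.lift (Sum.elim a b) (w e')) b) (w' e) = a e

/-- glueing of the components -/
lemma glue {R : Rim} {A A₁ A₂ : Chords R}
    (h₁ : ∀ e₀ e, PP A e₀ (A₁.A e) = PP A e₀ e) (h₂ : ∀ e₀ e, PP A e₀ (A₂.A e) = PP A e₀ e)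
    {w w' : ∀ e₀ : R.E, (subR (PP_inv A e₀)).E →
      FreeGroup ((subR (PP_inv A e₀)).E ⊕ (subR (PP_inv A e₀)).E)}
    (hw : ∀ e₀, Good (subA (PP_inv A e₀) A₁ (h₁ e₀)) (subA (PP_inv A e₀) A₂ (h₂ e₀))
      (w e₀) (w' e₀)) :
    Good A₁ A₂ (fun e => big (w (rep A e)) e) (fun e => big (w' (rep A e)) e) := by
  classical
  intro M _ b hb a ha
  have hrep : ∀ e, PP A (rep A e) e = true := fun e => (PP_iff A).2 (same_rep A e)
  have hsame : ∀ e, same A (A₁.A e) e := by
    intro e
    have := h₁ e e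
    rw [(PP_iff A).2 ((st A).iseqv.refl e)] at this
    exact (PP_iff A).1 this
  have hrA : ∀ e, rep A (A₁.A e) = rep A e := fun e => rep_eq A (hsame e)
  have hrσ : ∀ e, rep A (R.σ e) = rep A e := fun e => rep_eq A (same_σ A e)
  have hrφ : ∀ e, rep A (R.φ e) = rep A e := fun e => rep_eq A (same_φ A e)
  -- the solution on a component
  have hloc := fun e₀ => hw e₀ M (fun e => b e.1) (bd_sub hb) (fun e => a e.1)
    (sol_sub (hP := PP_inv A e₀) (hA := h₂ e₀) ha)
  set a' : R.E → M := fun e => FreeGroup.lift (Sum.elim a b) (big (w (rep A e)) e) with ha'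
  have hval : ∀ e₀ e (h : PP A e₀ e = true), rep A e = rep A e₀ → True := fun _ _ _ _ => trivial
  have hv : ∀ e e' (h : PP A (rep A e) e' = true), a' e' =
      FreeGroup.lift (Sum.elim (fun e : (subR (PP_inv A (rep A e))).E => a e.1) fun e => b e.1)
        (w (rep A e) ⟨e', h⟩) := by
    intro e e' h
    have h1 : rep A e' = rep A e := by
      refine (rep_eq A ((PP_iff A).1 h)).trans ?_
      exact rep_eq A ((st A).iseqv.symm (same_rep A e))
    simp only [ha']
    rw [h1, big_val _ _ _ h]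
  have hsol : ∀ e, Sol (subA (PP_inv A (rep A e)) A₁ (h₁ (rep A e)))
      (fun e => b e.1) (fun e' => a' e'.1) := by
    intro e
    have h1 := (hloc (rep A e)).1
    have h2 : (fun e' : (subR (PP_inv A (rep A e))).E => a' e'.1) =
        fun e' => FreeGroup.lift (Sum.elim (fun e : (subR (PP_inv A (rep A e))).E => a e.1)
          fun e => b e.1) (w (rep A e) e') := funext fun e' => hv e e'.1 e'.2
    rw [h2]
    exact h1
  choose s1 s2 s3 r s4 s5 using hsol
  refine ⟨⟨fun e => s1 e ⟨e, hrep e⟩, fun e he => s2 e ⟨e, hrep e⟩ (Subtype.ext he),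
    fun e he => s3 e ⟨e, hrep e⟩ (fun h => he (congrArg Subtype.val h)), ?_⟩, ?_⟩
  · -- potentials: choose them for the representatives
    let q : ∀ e₀ : R.E, ∃ r : R.E → M, (∀ e, PP A (rep A e₀) e = true → r (R.σ e) = r e) ∧
        ∀ e, PP A (rep A e₀) e = true → r (A₁.A e) = r e * a' e := fun e₀ =>
      ⟨ex (r e₀), fun e h => by
        rw [ex_pos (r e₀) h, ex_pos (r e₀) (e := R.σ e)
          (by rw [(PP_inv A (rep A e₀)).1]; exact h)]
        exact s4 e₀ ⟨e, h⟩, fun e h => by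
        rw [ex_pos (r e₀) h, ex_pos (r e₀) (e := A₁.A e) (by rw [h₁]; exact h)]
        exact s5 e₀ ⟨e, h⟩⟩
    choose rr hr1 hr2 using q
    have hrr : ∀ e, rep A (rep A e) = rep A e := fun e =>
      rep_eq A ((st A).iseqv.symm (same_rep A e))
    refine ⟨fun e => rr (rep A e) e, fun e => ?_, fun e => ?_⟩
    · simp only [hrσ]
      exact hr1 (rep A e) e (by rw [hrr]; exact hrep e)
    · simp only [hrA]
      exact hr2 (rep A e) e (by rw [hrr]; exact hrep e)
  · intro e
    rw [big_val _ _ _ (hrep e)]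
    have h1 := (hloc (rep A e)).2 ⟨e, hrep e⟩
    have h2 : (fun e' : (subR (PP_inv A (rep A e))).E => a' e'.1) =
        fun e' => FreeGroup.lift (Sum.elim (fun e : (subR (PP_inv A (rep A e))).E => a e.1)
          fun e => b e.1) (w (rep A e) e') := funext fun e' => hv e e'.1 e'.2
    rw [h2]
    exact h1

end ChordMain92

open ChordMain92

theorem chordMain (hC : ChordConStatement) : ChordMainStatement := by
  classical
  obtain ⟨C, d, hC⟩ := hC
  refine ⟨C, d, fun R A₁ A₂ hI hE => ?_⟩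
  have h₁ : ∀ e₀ e, PP A₁ e₀ (A₁.A e) = PP A₁ e₀ e := PP_A A₁
  have h₂ : ∀ e₀ e, PP A₁ e₀ (A₂.A e) = PP A₁ e₀ e := fun e₀ =>
    (hI _ (PP_inv A₁ e₀)).1 (h₁ e₀)
  have key : ∀ e₀ : R.E, ∃ w w' : (subR (PP_inv A₁ e₀)).E →
      FreeGroup ((subR (PP_inv A₁ e₀)).E ⊕ (subR (PP_inv A₁ e₀)).E),
      (∀ e, (w e).norm ≤ C * (Fintype.card R.E + 1) ^ d) ∧
      (∀ e, (w' e).norm ≤ C * (Fintype.card R.E + 1) ^ d) ∧
      Good (subA (PP_inv A₁ e₀) A₁ (h₁ e₀)) (subA (PP_inv A₁ e₀) A₂ (h₂ e₀)) w w' ∧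
      Good (subA (PP_inv A₁ e₀) A₂ (h₂ e₀)) (subA (PP_inv A₁ e₀) A₁ (h₁ e₀)) w' w := by
    intro e₀
    obtain ⟨w, w', hw, hw', hg⟩ := hC (subR (PP_inv A₁ e₀)) (subA (PP_inv A₁ e₀) A₁ (h₁ e₀))
      (subA (PP_inv A₁ e₀) A₂ (h₂ e₀)) ⟨⟨e₀, (PP_iff A₁).2 ((st A₁).iseqv.refl e₀)⟩⟩
      (con_sub (invIff_refl A₁) e₀ (h₁ e₀)) (con_sub hI e₀ (h₂ e₀)) (by
        intro M _ b hb
        obtain ⟨x1⟩ := equiv_sub (hP := PP_inv A₁ e₀) (A := A₁) (hA := h₁ e₀) b
        obtain ⟨x2⟩ := equiv_sub (hP := PP_inv A₁ e₀) (A := A₂) (hA := h₂ e₀) b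
        obtain ⟨x3⟩ := hE (PP A₁ e₀) (PP_inv A₁ e₀) (h₁ e₀) M (ex b) (bd_ex hb)
          (fun e he => ex_neg b he)
        exact ⟨x1.symm.trans (x3.trans x2)⟩)
    have hcard : Fintype.card (subR (PP_inv A₁ e₀)).E ≤ Fintype.card R.E :=
      Fintype.card_le_of_injective (fun e : (subR (PP_inv A₁ e₀)).E => e.1)
        Subtype.val_injective
    have hle : C * (Fintype.card (subR (PP_inv A₁ e₀)).E + 1) ^ d ≤
        C * (Fintype.card R.E + 1) ^ d :=
      Nat.mul_le_mul_left _ (Nat.pow_le_pow_left (Nat.succ_le_succ hcard) _)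
    exact ⟨w, w', fun e => (hw e).trans hle, fun e => (hw' e).trans hle,
      fun M _ b hb => (hg M b hb).1, fun M _ b hb => (hg M b hb).2⟩
  choose w w' hw hw' hg hg' using key
  refine ⟨fun e => big (w (rep A₁ e)) e, fun e => big (w' (rep A₁ e)) e,
    fun e => big_norm (hw _) e, fun e => big_norm (hw' _) e, fun M _ b hb => ⟨?_, ?_⟩⟩
  · exact glue h₁ h₂ hg M b hb
  · exact glue h₂ h₁ hg' M b hb

end Pool.Agent.Helper35_WH
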