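import Pool.Agent.Helper35_WH.Stmt3
import Pool.Agent.Helper92_WH.CHORDCON

/-!
# Normal forms of quadratic words (module NORM)
-/

set_option autoImplicit false
set_option linter.unusedSectionVars false

namespace Pool.Agent.Helper35_WH

open FreeGroup (mk of)

namespace Norm92

open Coord92 ChordCon92

section Lists

variable {L B : Type} [DecidableEq L] [DecidableEq B]

/-- arcs of a piece -/
def arcs : Piece L B → List L
  | .com a b => [a, b]
  | .sq c => [c]
  | .bd t _ _ => [t]

/-- sides of a piece -/
def sds : Piece L B → List B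
  | .com _ _ => []
  | .sq _ => []
  | .bd _ j _ => [j]

lemma cnt_append (V V' : List (Ltr L B)) (x : L ⊕ B) : cnt (V ++ V') x = cnt V x + cnt V' x :=
  List.countP_append

lemma wordOf_append (ps qs : List (Piece L B)) : wordOf (ps ++ qs) = wordOf ps ++ wordOf qs :=
  List.flatMap_append

lemma wordOf_cons (p : Piece L B) (ps : List (Piece L B)) :
    wordOf (p :: ps) = p.word ++ wordOf ps := by
  simp [wordOf]

lemma cnt_word_inl (p : Piece L B) (k : L) : cnt p.word (.inl k) = 2 * (arcs p).count k := by
  cases p with
  | com a b =>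
    simp only [Piece.word, arcs, cnt, List.countP_cons, List.countP_nil, List.count_cons,
      List.count_nil, Sum.inl.injEq, decide_eq_true_eq, beq_iff_eq]
    split_ifs <;> rfl
  | sq c =>
    simp only [Piece.word, arcs, cnt, List.countP_cons, List.countP_nil, List.count_cons,
      List.count_nil, Sum.inl.injEq, decide_eq_true_eq, beq_iff_eq]
    split_ifs <;> rfl
  | bd t j s =>
    simp only [Piece.word, arcs, cnt, List.countP_cons, List.countP_nil, List.count_cons,
      List.count_nil, Sum.inl.injEq, decide_eq_true_eq, beq_iff_eq, reduceCtorEq, if_false]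
    split_ifs <;> rfl

lemma cnt_word_inr (p : Piece L B) (j : B) : cnt p.word (.inr j) = (sds p).count j := by
  cases p <;>
    simp [Piece.word, sds, cnt, List.countP_cons, List.count_cons]

lemma cnt_wordOf_inl (ps : List (Piece L B)) (k : L) :
    cnt (wordOf ps) (.inl k) = 2 * (ps.flatMap arcs).count k := by
  induction ps with
  | nil => rfl
  | cons p ps ih =>
    rw [wordOf_cons, cnt_append, cnt_word_inl, ih, List.flatMap_cons, List.count_append]
    ring

lemma cnt_wordOf_inr (ps : List (Piece L B)) (j : B) :
    cnt (wordOf ps) (.inr j) = (ps.flatMap sds).count j := by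
  induction ps with
  | nil => rfl
  | cons p ps ih =>
    rw [wordOf_cons, cnt_append, cnt_word_inr, ih, List.flatMap_cons, List.count_append]

lemma length_eq_of_cnt {V V' : List (Ltr L B)} (h : ∀ x, cnt V x = cnt V' x) :
    V.length = V'.length := by
  have h1 : (V.map Prod.fst).Perm (V'.map Prod.fst) := by
    refine (@List.perm_iff_count _ instBEqOfDecidableEq _ _ _).2 fun x => ?_
    have key : ∀ U : List (Ltr L B),
        @List.count _ instBEqOfDecidableEq x (U.map Prod.fst) = cnt U x := by
      intro U
      change List.countP (fun y => @BEq.beq _ instBEqOfDecidableEq y x) (U.map Prod.fst) = _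
      rw [List.countP_map]
      rfl
    rw [key, key, h]
  have := h1.length_eq
  simpa using this

/-- sides -/
def bdl : Piece L B → Option (L × B × Bool)
  | .bd t j s => some (t, j, s)
  | _ => none
/-- handles -/
def coml : Piece L B → Option (L × L)
  | .com a b => some (a, b)
  | _ => none
/-- crosscaps -/
def sql : Piece L B → Option L
  | .sq c => some c
  | _ => none

lemma perm_parts (ps : List (Piece L B)) :
    ps.Perm (((ps.filterMap bdl).map fun d => Piece.bd d.1 d.2.1 d.2.2) ++
      (((ps.filterMap coml).map fun d => Piece.com d.1 d.2) ++ (ps.filterMap sql).map Piece.sq)) := by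
  induction ps with
  | nil => exact List.Perm.nil
  | cons p ps ih =>
    cases p with
    | bd t j s =>
      simp only [List.filterMap_cons, bdl, coml, sql, List.map_cons, List.cons_append]
      exact ih.cons _
    | com a b =>
      simp only [List.filterMap_cons, bdl, coml, sql, List.map_cons, List.cons_append]
      exact (ih.cons _).trans List.perm_middle.symm
    | sq c =>
      simp only [List.filterMap_cons, bdl, coml, sql, List.map_cons]
      refine (ih.cons _).trans ?_
      rw [← List.append_assoc, ← List.append_assoc]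
      exact List.perm_middle.symm

lemma mem_wordOf {ps : List (Piece L B)} {y : Ltr L B} (hy : y ∈ wordOf ps) :
    (∃ k ∈ ps.flatMap arcs, y.1 = .inl k) ∨ ∃ j, y.1 = .inr j := by
  unfold wordOf at hy
  rw [List.mem_flatMap] at hy
  obtain ⟨p, hp, hy⟩ := hy
  have : (∃ k ∈ arcs p, y.1 = .inl k) ∨ ∃ j, y.1 = .inr j := by
    cases p with
    | com a b =>
      simp only [Piece.word, List.mem_cons, List.not_mem_nil, or_false] at hy
      left
      rcases hy with rfl | rfl | rfl | rfl
      · exact ⟨a, by simp [arcs], rfl⟩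
      · exact ⟨b, by simp [arcs], rfl⟩
      · exact ⟨a, by simp [arcs], rfl⟩
      · exact ⟨b, by simp [arcs], rfl⟩
    | sq c =>
      simp only [Piece.word, List.mem_cons, List.not_mem_nil, or_false] at hy
      left
      rcases hy with rfl | rfl <;> exact ⟨c, by simp [arcs], rfl⟩
    | bd t j s =>
      simp only [Piece.word, List.mem_cons, List.not_mem_nil, or_false] at hy
      rcases hy with rfl | rfl | rfl
      · exact Or.inl ⟨t, by simp [arcs], rfl⟩
      · exact Or.inr ⟨j, rfl⟩
      · exact Or.inl ⟨t, by simp [arcs], rfl⟩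
  rcases this with ⟨k, hk, h⟩ | h
  · exact Or.inl ⟨k, List.mem_flatMap.2 ⟨p, hp, hk⟩, h⟩
  · exact Or.inr h

end Lists

lemma fix_mk {α : Type} {f : FreeGroup α ≃* FreeGroup α} (V : List (α × Bool))
    (h : ∀ y ∈ V, f (of y.1) = of y.1) : f (mk V) = mk V := by
  induction V with
  | nil =>
    have : (mk ([] : List (α × Bool))) = 1 := rfl
    rw [this, map_one]
  | cons x V ih =>
    have h1 : mk (x :: V) = mk [x] * mk V := by rw [FreeGroup.mul_mk]; rfl
    rw [h1, map_mul, ih fun y hy => h y (List.mem_cons_of_mem _ hy)]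
    congr 1
    have h2 := h x List.mem_cons_self
    obtain ⟨a, b⟩ := x
    cases b
    · have h3 : mk [(a, false)] = (of a)⁻¹ := rfl
      rw [h3, map_inv, h2]
    · exact h2

section Moves

variable {L B : Type} [DecidableEq L] [DecidableEq B]

lemma eqw_local {f : FreeGroup (L ⊕ B) ≃* FreeGroup (L ⊕ B)} {S : List L} {N : ℕ}
    (hfix : ∀ x : L ⊕ B, (∀ y ∈ S, x ≠ .inl y) → f (of x) = of x)
    {ps qs ps1 ps2 : List (Piece L B)} (hm : f (mk (wordOf ps)) = mk (wordOf qs))
    (h1 : ∀ y ∈ S, y ∉ ps1.flatMap arcs) (h2 : ∀ y ∈ S, y ∉ ps2.flatMap arcs)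
    (hf1 : ∀ x, (f (of x)).norm ≤ N) (hf2 : ∀ x, (f.symm (of x)).norm ≤ N) :
    Eqw N (wordOf (ps1 ++ (ps ++ ps2))) (wordOf (ps1 ++ (qs ++ ps2))) := by
  have key : ∀ us : List (Piece L B), (∀ y ∈ S, y ∉ us.flatMap arcs) →
      f (mk (wordOf us)) = mk (wordOf us) := by
    intro us hus
    apply fix_mk
    intro y hy
    apply hfix
    intro z hz
    rcases mem_wordOf hy with ⟨k, hk, h⟩ | ⟨j, h⟩
    · rw [h]
      rintro h3
      rw [Sum.inl.injEq] at h3
      subst h3
      exact hus _ hz hk
    · rw [h]
      exact fun h3 => by cases h3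
  refine ⟨f, fun j => hfix _ fun y _ => by simp, ?_, fun k => hf1 _, fun k => hf2 _⟩
  simp only [wordOf_append, ← FreeGroup.mul_mk, map_mul]
  rw [key ps1 h1, key ps2 h2, hm]

/-- renaming of the arcs -/
lemma eqw_rename {L' : Type} [DecidableEq L'] (g : L' ≃ L) (V : List (Ltr L' B)) :
    Eqw 1 V (V.map fun x => ((Sum.map g id x.1 : L ⊕ B), x.2)) := by
  refine ⟨FreeGroup.freeGroupCongr (Equiv.sumCongr g (Equiv.refl B)), fun j => ?_, ?_, fun k => ?_,
    fun k => ?_⟩
  · simp
  · rw [FreeGroup.freeGroupCongr_apply, FreeGroup.map.mk]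
    rfl
  · simp
  · rw [FreeGroup.freeGroupCongr_symm]
    simp

end Moves

lemma bij_of_list {L : Type} [Fintype L] [DecidableEq L] (l : List L) (hn : l.Nodup)
    (hc : ∀ k, k ∈ l) {X : Type} [Fintype X] (g : X → L) (hs : ∀ k ∈ l, ∃ x, g x = k)
    (hcard : Fintype.card X = l.length) : Function.Bijective g := by
  rw [Fintype.bijective_iff_surjective_and_card]
  refine ⟨fun k => hs k (hc k), ?_⟩
  rw [hcard, ← List.toFinset_card_of_nodup hn, ← Finset.card_univ]
  congr 1
  ext k
  simp [hc k]

lemma flatMap_finRange {α β : Type} (l : List α) (f : α → List β) :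
    (List.finRange l.length).flatMap (fun i => f (l.get i)) = l.flatMap f := by
  have h : (List.finRange l.length).map l.get = l := List.map_get_finRange l
  conv_rhs => rw [← h]
  rw [List.flatMap_map]

section Canon

variable {L : Type} [DecidableEq L] [Fintype L] {β : ℕ}

/-- the sides with given directions -/
def sideList (T : Fin β → L) (sgn : Fin β → Bool) : List (Piece L (Fin β)) :=
  (List.finRange β).map fun j => .bd (T j) j (sgn j)

lemma arcs_sideList (T : Fin β → L) (sgn : Fin β → Bool) :
    (sideList T sgn).flatMap arcs = (List.finRange β).map T := by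
  unfold sideList
  rw [List.flatMap_map]
  simp [arcs]
  exact List.flatMap_pure_eq_map _ _

lemma arcs_com (hs : List (L × L)) :
    ((hs.map fun d => (Piece.com d.1 d.2 : Piece L (Fin β))).flatMap arcs) =
      hs.flatMap fun d => [d.1, d.2] := by
  rw [List.flatMap_map]
  rfl

lemma arcs_sq (qs : List L) :
    ((qs.map fun d => (Piece.sq d : Piece L (Fin β))).flatMap arcs) = qs := by
  rw [List.flatMap_map]
  simp [arcs]

lemma length_com (hs : List (L × L)) : (hs.flatMap fun d => [d.1, d.2]).length = 2 * hs.length := by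
  induction hs with
  | nil => rfl
  | cons a l ih => rw [List.flatMap_cons, List.length_append, ih]; simp; ring

lemma canon_or (T : Fin β → L) (sgn : Fin β → Bool) (hs : List (L × L))
    (hn : ((List.finRange β).map T ++ hs.flatMap fun d => [d.1, d.2]).Nodup)
    (hc : ∀ k, k ∈ (List.finRange β).map T ++ hs.flatMap fun d => [d.1, d.2]) :
    Eqw 1 (orWord β hs.length sgn)
      (wordOf (sideList T sgn ++ hs.map fun d => Piece.com d.1 d.2)) := by
  let g : Fin β ⊕ (Fin hs.length ⊕ Fin hs.length) → L :=
    Sum.elim T (Sum.elim (fun i => (hs.get i).1) fun i => (hs.get i).2)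
  have hg : Function.Bijective g := by
    refine bij_of_list _ hn hc g ?_ ?_
    · intro k hk
      rw [List.mem_append] at hk
      rcases hk with hk | hk
      · obtain ⟨j, -, rfl⟩ := List.mem_map.1 hk
        exact ⟨.inl j, rfl⟩
      · obtain ⟨d, hd, hk⟩ := List.mem_flatMap.1 hk
        obtain ⟨i, rfl⟩ := List.mem_iff_get.1 hd
        simp only [List.mem_cons, List.not_mem_nil, or_false] at hk
        rcases hk with rfl | rfl
        · exact ⟨.inr (.inl i), rfl⟩
        · exact ⟨.inr (.inr i), rfl⟩
    · rw [List.length_append, List.length_map, List.length_finRange, length_com]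
      simp
      ring
  have h := eqw_rename (B := Fin β) (Equiv.ofBijective g hg) (orWord β hs.length sgn)
  have h2 : (orWord β hs.length sgn).map
      (fun x => ((Sum.map (Equiv.ofBijective g hg) id x.1 : L ⊕ Fin β), x.2)) =
      wordOf (sideList T sgn ++ hs.map fun d => Piece.com d.1 d.2) := by
    rw [wordOf_append]
    unfold orWord sideWord sideList wordOf
    rw [List.map_append, List.map_flatMap, List.map_flatMap, List.flatMap_map, List.flatMap_map,
      ← flatMap_finRange hs]
    rfl
  rw [h2] at h
  exact h

lemma canon_no (T : Fin β → L) (qs : List L)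
    (hn : ((List.finRange β).map T ++ qs).Nodup)
    (hc : ∀ k, k ∈ (List.finRange β).map T ++ qs) :
    Eqw 1 (noWord β qs.length)
      (wordOf (sideList T (fun _ => true) ++ qs.map Piece.sq)) := by
  let g : Fin β ⊕ Fin qs.length → L := Sum.elim T fun i => qs.get i
  have hg : Function.Bijective g := by
    refine bij_of_list _ hn hc g ?_ ?_
    · intro k hk
      rw [List.mem_append] at hk
      rcases hk with hk | hk
      · obtain ⟨j, -, rfl⟩ := List.mem_map.1 hk
        exact ⟨.inl j, rfl⟩
      · obtain ⟨i, rfl⟩ := List.mem_iff_get.1 hk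
        exact ⟨.inr i, rfl⟩
    · rw [List.length_append, List.length_map, List.length_finRange]
      simp
  have h := eqw_rename (B := Fin β) (Equiv.ofBijective g hg) (noWord β qs.length)
  have h2 : (noWord β qs.length).map
      (fun x => ((Sum.map (Equiv.ofBijective g hg) id x.1 : L ⊕ Fin β), x.2)) =
      wordOf (sideList T (fun _ => true) ++ qs.map Piece.sq) := by
    rw [wordOf_append]
    unfold noWord sideWord sideList wordOf
    rw [List.map_append, List.map_flatMap, List.map_flatMap, List.flatMap_map, List.flatMap_map,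
      ← flatMap_finRange qs]
    rfl
  rw [h2] at h
  exact h

end Canon

lemma count_one {α : Type} [DecidableEq α] {l : List α} (h : ∀ k, l.count k = 1) :
    l.Nodup ∧ ∀ k, k ∈ l :=
  ⟨List.nodup_iff_count_le_one.2 fun k => (h k).le, fun k =>
    List.count_pos_iff.1 (by rw [h k]; exact Nat.one_pos)⟩

lemma length_sideList_word {L : Type} {β : ℕ} (T : Fin β → L) (sgn : Fin β → Bool) :
    (wordOf (sideList T sgn)).length = 3 * β := by
  unfold wordOf sideList
  rw [List.flatMap_map, List.length_flatMap]
  simp [Piece.word]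
  ring

lemma length_com_word {L : Type} {β : ℕ} (hs : List (L × L)) :
    (wordOf (hs.map fun d => (Piece.com d.1 d.2 : Piece L (Fin β)))).length = 4 * hs.length := by
  unfold wordOf
  rw [List.flatMap_map, List.length_flatMap]
  simp [Piece.word]
  ring

end Norm92

open Norm92 Coord92 ChordCon92

theorem norm (hE : ExtractStatement) (hP : PermStatement) (hX : CrossStatement)
    (hF : FlipStatement) : NormStatement := by
  classical
  let N₀ : ℕ → ℕ := fun n => (8 * n + 1 + 1) * (8 * n + 1 + 1)
  let M₀ : ℕ → ℕ := fun n => 10 * (n + 1)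
  have hN₀ : PB N₀ := by
    have : PB fun n => 8 * n + 1 + 1 := (((PB.const 8).mul PB.id).add (PB.const 1)).add (PB.const 1)
    exact this.mul this
  have hM₀ : PB M₀ := (PB.const 10).mul (PB.id.add (PB.const 1))
  obtain ⟨C, d, hCd⟩ : PB fun n => (((N₀ n + 1) * (M₀ n + 1) + 1) * (M₀ n + 1) + 1) * (1 + 1) :=
    (((((hN₀.add (PB.const 1)).mul (hM₀.add (PB.const 1))).add (PB.const 1)).mul
      (hM₀.add (PB.const 1))).add (PB.const 1)).mul (PB.const 2)
  refine ⟨C, d, fun ℓ β W col two one vc => ?_⟩
  obtain ⟨ps, hcnt, he⟩ := hE (Fin ℓ) (Fin β) W col (fun k => Or.inr (two k))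
    (fun j => (one j).le) vc
  set n := W.length with hn
  have hlen : (wordOf ps).length = n := length_eq_of_cnt hcnt
  have harc : ∀ k, (ps.flatMap arcs).count k = 1 := by
    intro k
    have h1 := cnt_wordOf_inl ps k
    rw [hcnt, two] at h1
    omega
  have hsd : ∀ j, (ps.flatMap sds).count j = 1 := by
    intro j
    rw [← cnt_wordOf_inr, hcnt, one]
  set bds := ps.filterMap bdl with hbds
  set cs := ps.filterMap coml with hcs
  set qs := ps.filterMap sql with hqs
  have hparts := perm_parts ps
  rw [← hbds, ← hcs, ← hqs] at hparts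
  -- the sides in their order
  have hsides : (bds.map fun d => d.2.1).Nodup ∧ ∀ j, j ∈ bds.map fun d => d.2.1 := by
    apply count_one
    intro j
    have h1 := (hparts.flatMap_right (f := sds)).count_eq j
    rw [hsd] at h1
    rw [List.flatMap_append, List.flatMap_append, List.flatMap_map, List.flatMap_map,
      List.flatMap_map] at h1
    have hn1 : (cs.flatMap fun _ => ([] : List (Fin β))) = [] := by simp
    have hn2 : (qs.flatMap fun _ => ([] : List (Fin β))) = [] := by simp
    simp only [sds] at h1
    rw [hn1, hn2, List.append_nil, List.append_nil] at h1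
    rw [h1]
    congr 1
    exact (List.flatMap_pure_eq_map _ _).symm
  have hex : ∀ j : Fin β, ∃ p : Fin ℓ × Bool, (p.1, j, p.2) ∈ bds := by
    intro j
    obtain ⟨⟨t, j', s⟩, hd, rfl⟩ := List.mem_map.1 (hsides.2 j)
    exact ⟨(t, s), hd⟩
  choose p hp using hex
  let T : Fin β → Fin ℓ := fun j => (p j).1
  let sgn : Fin β → Bool := fun j => (p j).2
  have hbp : bds.Perm ((List.finRange β).map fun j => (T j, j, sgn j)) := by
    refine (List.perm_ext_iff_of_nodup hsides.1.of_map ?_).2 ?_
    · refine (List.nodup_finRange β).map ?_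
      intro i j hij
      simp only [Prod.mk.injEq] at hij
      exact hij.2.1
    · intro d
      constructor
      · intro hd
        refine List.mem_map.2 ⟨d.2.1, List.mem_finRange _, ?_⟩
        exact List.inj_on_of_nodup_map hsides.1 (hp d.2.1) hd rfl
      · intro hd
        obtain ⟨j, -, rfl⟩ := List.mem_map.1 hd
        exact hp j
  have hside : (bds.map fun d => (Piece.bd d.1 d.2.1 d.2.2 : Piece (Fin ℓ) (Fin β))).Perm
      (sideList T sgn) := by
    have h1 := hbp.map fun d => (Piece.bd d.1 d.2.1 d.2.2 : Piece (Fin ℓ) (Fin β))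
    rw [List.map_map] at h1
    exact h1
  have hps : ps.Perm (sideList T sgn ++ ((cs.map fun d => Piece.com d.1 d.2) ++
      qs.map Piece.sq)) := hparts.trans (hside.append_right _)
  have hA : ((List.finRange β).map T ++ ((cs.flatMap fun d => [d.1, d.2]) ++ qs)).Nodup ∧
      ∀ k, k ∈ (List.finRange β).map T ++ ((cs.flatMap fun d => [d.1, d.2]) ++ qs) := by
    apply count_one
    intro k
    have h1 := (hps.flatMap_right (f := arcs)).count_eq k
    rw [harc] at h1
    rw [List.flatMap_append, List.flatMap_append, arcs_sideList, arcs_com, arcs_sq] at h1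
    exact h1.symm
  have hlen2 : 3 * β + (4 * cs.length + (wordOf (qs.map (Piece.sq (B := Fin β)))).length) = n := by
    have h1 := (hps.flatMap_right (f := Piece.word)).length_eq
    have h2 : (wordOf (sideList T sgn ++ ((cs.map fun d => Piece.com d.1 d.2) ++
      qs.map Piece.sq))).length = n := by
      rw [← hlen]
      exact h1.symm
    rw [wordOf_append, wordOf_append, List.length_append, List.length_append,
      length_sideList_word, length_com_word] at h2
    exact h2
  have hpm := fun ps' (h : ps.Perm ps') => hP (Fin ℓ) (Fin β) ps ps'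
    (fun k => by rw [hcnt, two]) (fun j => by rw [hcnt, one]) h
  have hstart : ∀ ps', ps.Perm ps' → Eqw (N₀ n) W (wordOf ps') := by
    intro ps' h
    have h1 := hpm ps' h
    rw [hlen] at h1
    exact eqw_trans he h1
  have hfin : ∀ x, (x ≤ (((N₀ n + 1) * (M₀ n + 1) + 1) * (M₀ n + 1) + 1) * (1 + 1)) →
      x ≤ C * (n + 1) ^ d := fun x hx => hx.trans (hCd n)
  rcases hq : qs with _ | ⟨c, qs'⟩
  · left
    refine ⟨cs.length, sgn, ?_⟩
    rw [hq] at hps hA
    simp only [List.map_nil, List.append_nil] at hps hA
    have h1 := hstart _ hps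
    have h2 := eqw_symm (canon_or T sgn cs hA.1 hA.2)
    refine eqw_mono (eqw_trans h1 h2) (hfin _ ?_)
    refine Nat.mul_le_mul_right _ (Nat.succ_le_succ ?_)
    calc N₀ n ≤ (N₀ n + 1) * (M₀ n + 1) + 1 := by nlinarith [Nat.zero_le (N₀ n), Nat.zero_le (M₀ n)]
      _ ≤ _ := Nat.le_mul_of_pos_right _ (Nat.succ_pos _)
  · right
    rw [hq] at hps hA
    set Q : List (Fin ℓ) := (cs.flatMap fun d => [d.1, d.2]) ++ (c :: qs') with hQ
    refine ⟨Q.length, by rw [hQ, List.length_append, List.length_cons]; omega, ?_⟩
    -- nodup facts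
    have hnd := hA.1
    have hnd1 : (c :: ((List.finRange β).map T ++ ((cs.flatMap fun d => [d.1, d.2]) ++ qs'))).Nodup := by
      refine (List.Perm.nodup_iff ?_).1 hnd
      rw [← List.append_assoc, ← List.append_assoc]
      exact List.perm_middle
    set ds : List (Fin ℓ × Fin β × Bool) := (List.finRange β).map fun j => (T j, j, sgn j) with hds
    have hdsT : ds.map (fun d => d.1) = (List.finRange β).map T := by
      rw [hds, List.map_map]; rfl
    have hdsbd : (ds.map fun d => (Piece.bd d.1 d.2.1 d.2.2 : Piece (Fin ℓ) (Fin β))) =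
        sideList T sgn := by
      rw [hds, List.map_map]; rfl
    have hdsbd' : (ds.map fun d => (Piece.bd d.1 d.2.1 true : Piece (Fin ℓ) (Fin β))) =
        sideList T fun _ => true := by
      rw [hds, List.map_map]; rfl
    rw [List.nodup_cons, List.nodup_append'] at hnd1
    obtain ⟨hc1, hT1, hR1, hdis⟩ := hnd1
    rw [List.nodup_append'] at hR1
    obtain ⟨hR2, hR3, hR4⟩ := hR1
    rw [List.mem_append, List.mem_append] at hc1
    push Not at hc1
    obtain ⟨hc2, hc3, hc4⟩ := hc1
    -- first step
    have s1 : Eqw (N₀ n) W (wordOf ([] ++ ((Piece.sq c :: sideList T sgn) ++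
        ((cs.map fun d => Piece.com d.1 d.2) ++ qs'.map Piece.sq)))) := by
      apply hstart
      refine hps.trans ?_
      rw [List.nil_append, List.map_cons, List.cons_append, ← List.append_assoc,
        ← List.append_assoc]
      exact List.perm_middle
    -- directions of the sides
    obtain ⟨f, hf1, hf2, hf3, hf4⟩ := hF (Fin ℓ) (Fin β) c ds (fun _ => true) (by
      rw [hdsT, List.nodup_cons]
      exact ⟨hc2, hT1⟩)
    rw [hdsbd, hdsbd'] at hf2
    have hdl : ds.length = β := by rw [hds, List.length_map, List.length_finRange]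
    have hb1 : 10 * (ds.length + 1) ≤ M₀ n := by
      rw [hdl]
      change 10 * (β + 1) ≤ 10 * (n + 1)
      omega
    have s2 : Eqw (M₀ n) (wordOf ([] ++ ((Piece.sq c :: sideList T sgn) ++
        ((cs.map fun d => Piece.com d.1 d.2) ++ qs'.map Piece.sq))))
        (wordOf ([] ++ (((sideList T fun _ => true) ++ [Piece.sq c]) ++
        ((cs.map fun d => Piece.com d.1 d.2) ++ qs'.map Piece.sq)))) := by
      refine eqw_local (S := c :: ds.map fun d => d.1) hf1 hf2 (fun y _ => by simp) ?_
        (fun x => (hf3 x).trans hb1) (fun x => (hf4 x).trans hb1)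
      intro y hy
      rw [List.flatMap_append, arcs_com, arcs_sq]
      rw [List.mem_cons, hdsT] at hy
      rcases hy with rfl | hy
      · rw [List.mem_append]
        exact fun h => h.elim hc3 hc4
      · exact hdis hy
    -- handles
    obtain ⟨g, hg1, hg2, hg3, hg4⟩ := hX (Fin ℓ) (Fin β) c cs (by
      rw [List.nodup_cons]
      exact ⟨hc3, hR2⟩)
    have hb2 : 10 * (cs.length + 1) ≤ M₀ n := by
      change 10 * (cs.length + 1) ≤ 10 * (n + 1)
      omega
    have s3 : Eqw (M₀ n) (wordOf ((sideList T fun _ => true) ++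
        ((Piece.sq c :: cs.map fun d => Piece.com d.1 d.2) ++ qs'.map Piece.sq)))
        (wordOf ((sideList T fun _ => true) ++
        (((cs.flatMap fun h => [Piece.sq h.1, Piece.sq h.2]) ++ [Piece.sq c]) ++
          qs'.map Piece.sq))) := by
      refine eqw_local (S := c :: cs.flatMap fun h => [h.1, h.2]) hg1 hg2 ?_ ?_
        (fun x => (hg3 x).trans hb2) (fun x => (hg4 x).trans hb2)
      · intro y hy
        rw [arcs_sideList]
        rw [List.mem_cons] at hy
        rcases hy with rfl | hy
        · exact hc2
        · exact fun h => hdis h (List.mem_append_left _ hy)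
      · intro y hy
        rw [arcs_sq]
        rw [List.mem_cons] at hy
        rcases hy with rfl | hy
        · exact hc4
        · exact fun h => hR4 hy h
    have e1 : ([] ++ (((sideList T fun _ => true) ++ [Piece.sq c]) ++
        ((cs.map fun d => Piece.com d.1 d.2) ++ qs'.map Piece.sq)) : List (Piece (Fin ℓ) (Fin β))) =
        (sideList T fun _ => true) ++
        ((Piece.sq c :: cs.map fun d => Piece.com d.1 d.2) ++ qs'.map Piece.sq) := by
      simp
    have e2 : ((sideList T fun _ => true) ++
        (((cs.flatMap fun h => [Piece.sq h.1, Piece.sq h.2]) ++ [Piece.sq c]) ++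
          qs'.map Piece.sq) : List (Piece (Fin ℓ) (Fin β))) =
        (sideList T fun _ => true) ++ Q.map Piece.sq := by
      rw [hQ, List.map_append, List.map_flatMap]
      simp
    rw [e1] at s2
    rw [e2] at s3
    have s4 := canon_no T Q hA.1 hA.2
    exact eqw_mono (eqw_trans (eqw_trans (eqw_trans s1 s2) s3) (eqw_symm s4)) (hfin _ le_rfl)

end Pool.Agent.Helper35_WH
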